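import Pool.Agent.H18.POP.Core

set_option autoImplicit false

/-!
The core of the theorem on popular elements of `2A - 2A`, with a parameter `K` (version of
`scale` and `pop_core` in H18/POP, which is `K = 16`).
-/

open Finset ComplexConjugate
open scoped Pointwise

namespace Pool.Agent.H18.POP

open Pool.Agent.H18

/-- There is a scale at which a bounded function is far from being doubled. -/
lemma scaleK (ψ : ℝ → ℝ) (L K : ℝ) (hK : 16 ≤ K) (h0 : -1 ≤ ψ 0) (h1 : ∀ t, ψ t ≤ L) (J : ℕ)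
    (hJ0 : 0 < J) (hJ : 2 * (L + K) / K ≤ 2 ^ J) :
    ∃ j < J, (K * 2 ^ j) * (1 / (8 * ((j : ℝ) + 1) ^ 2) + 1 / (8 * (J : ℝ)))
      ≤ 2 * ψ (K * 2 ^ j - K) - ψ (2 * (K * 2 ^ j - K) + K) - 1 + K := by
  by_contra hno
  push Not at hno
  have hJr : (0 : ℝ) < J := by exact_mod_cast hJ0
  have hK0 : (0 : ℝ) < K := by linarith
  have key : ∀ j ≤ J, (K * 2 ^ j : ℝ) * (7 / 8 + (1 / 16) * (1 / 2 ^ j) - 1 / 8 +
      1 / 8 * (1 / ((j : ℝ) + 1)) - (j : ℝ) * (1 / (16 * J))) ≤ ψ (K * 2 ^ j - K) + K := by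
    intro j
    induction j with
    | zero =>
      intro _
      norm_num
      linarith
    | succ j ih =>
      intro hj
      have h2 := ih (by omega)
      have h3 := hno j (by omega)
      have e1 : (2 * (K * 2 ^ j - K) + K : ℝ) = K * 2 ^ (j + 1) - K := by
        rw [pow_succ]; ring
      rw [e1] at h3
      have hp : (0 : ℝ) < 2 ^ j := by positivity
      have hj1 : (0 : ℝ) < (j : ℝ) + 1 := by positivity
      have hj2 : (0 : ℝ) < (j : ℝ) + 2 := by positivity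
      -- lower bound
      have h4 : 2 * ((K * 2 ^ j : ℝ) * (7 / 8 + (1 / 16) * (1 / 2 ^ j) - 1 / 8 +
          1 / 8 * (1 / ((j : ℝ) + 1)) - (j : ℝ) * (1 / (16 * J)))) - 1
          - (K * 2 ^ j) * (1 / (8 * ((j : ℝ) + 1) ^ 2) + 1 / (8 * (J : ℝ)))
          ≤ ψ (K * 2 ^ (j + 1) - K) + K := by linarith
      refine le_trans ?_ h4
      push_cast
      have e2 : (K * 2 ^ (j + 1) : ℝ) * (7 / 8 + (1 / 16) * (1 / 2 ^ (j + 1)) - 1 / 8 +
          1 / 8 * (1 / ((j : ℝ) + 1 + 1)) - ((j : ℝ) + 1) * (1 / (16 * J)))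
          = 3 / 2 * (K * 2 ^ j) + K / 16 + K * 2 ^ j / 4 * (1 / ((j : ℝ) + 2))
            - K * 2 ^ j * ((j : ℝ) + 1) / (8 * J) := by
        have : (j : ℝ) + 1 + 1 = (j : ℝ) + 2 := by ring
        rw [this, pow_succ]
        field_simp
        ring
      have e3 : 2 * ((K * 2 ^ j : ℝ) * (7 / 8 + (1 / 16) * (1 / 2 ^ j) - 1 / 8 +
          1 / 8 * (1 / ((j : ℝ) + 1)) - (j : ℝ) * (1 / (16 * J)))) - 1
          - (K * 2 ^ j) * (1 / (8 * ((j : ℝ) + 1) ^ 2) + 1 / (8 * (J : ℝ)))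
          = 3 / 2 * (K * 2 ^ j) + (K / 8 - 1) + K * 2 ^ j / 4 * (1 / ((j : ℝ) + 1))
            - K * 2 ^ j / 8 * (1 / ((j : ℝ) + 1) ^ 2) - K * 2 ^ j * ((j : ℝ) + 1) / (8 * J) := by
        field_simp
        ring
      rw [e2, e3]
      have e4 : 1 / ((j : ℝ) + 1) ^ 2 ≤ 2 * (1 / ((j : ℝ) + 1) - 1 / ((j : ℝ) + 2)) := by
        have e5 : 2 * (1 / ((j : ℝ) + 1) - 1 / ((j : ℝ) + 2))
            = 2 / (((j : ℝ) + 1) * ((j : ℝ) + 2)) := by field_simp; ring
        rw [e5, div_le_div_iff₀ (by positivity) (by positivity)]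
        have : (0 : ℝ) ≤ (j : ℝ) := Nat.cast_nonneg j
        nlinarith
      have e6 : K * (2 : ℝ) ^ j / 8 * (1 / ((j : ℝ) + 1) ^ 2)
          ≤ K * 2 ^ j / 8 * (2 * (1 / ((j : ℝ) + 1) - 1 / ((j : ℝ) + 2))) :=
        mul_le_mul_of_nonneg_left e4 (by positivity)
      have e7 : K / 16 ≤ K / 8 - 1 := by linarith
      linarith
  have h5 := key J le_rfl
  have h6 := h1 (K * 2 ^ J - K)
  have hp : (0 : ℝ) < 2 ^ J := by positivity
  have h7 : (K * 2 ^ J : ℝ) * (11 / 16) ≤ (K * 2 ^ J : ℝ) * (7 / 8 + (1 / 16) * (1 / 2 ^ J) - 1 / 8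
      + 1 / 8 * (1 / ((J : ℝ) + 1)) - (J : ℝ) * (1 / (16 * J))) := by
    apply mul_le_mul_of_nonneg_left _ (by positivity)
    have a1 : (0 : ℝ) ≤ (1 / 16) * (1 / 2 ^ J) := by positivity
    have a2 : (0 : ℝ) ≤ 1 / 8 * (1 / ((J : ℝ) + 1)) := by positivity
    have a3 : (J : ℝ) * (1 / (16 * J)) = 1 / 16 := by field_simp
    rw [a3]
    linarith
  have h8 : 2 * (L + K) ≤ 2 ^ J * K := by
    rwa [div_le_iff₀ hK0] at hJ
  have h9 : 0 < K * 2 ^ J := by positivity
  linarith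

/-- The core of the theorem on popular elements of `2A - 2A`, with threshold `e^{-(K+1)}`. -/
theorem pop_coreK {N : ℕ} [NeZero N] (A : Finset (ZMod N)) (hA : A.Nonempty) (L K : ℝ)
    (hK : 16 ≤ K) (hL0 : 0 < L) (hL : L = Real.log ((N : ℝ) / A.card)) (J : ℕ) (hJ0 : 0 < J)
    (hJ : 2 * (L + K) / K ≤ 2 ^ J) (n i : ℕ)
    (hn : (N : ℝ) / A.card ≤ 4 ^ n * (1 / (384 * J) / 8))
    (hi : 384 * (J : ℝ) * n ≤ 2 ^ i) :
    ∃ Γ : Finset (ZMod N), (Γ.card : ℝ) ≤ 8 * (L * (768 * J * L) + 2 * i * (768 * J * L) ^ 2) ∧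
      ∀ ε : ℝ, Γ.card * ε ≤ 1 / (384 * J) / 80 → ∀ x : ZMod N,
        (∀ γ ∈ Γ, |((γ * x).val : ℝ) / (N : ℝ)
          - ((round (((γ * x).val : ℝ) / (N : ℝ)) : ℤ) : ℝ)| ≤ ε) →
        Real.exp (-(K + 1)) ≤ N * ((rep4 A x : ℝ) / (A.card : ℝ) ^ 4) := by
  classical
  have hN : (0 : ℝ) < N := by exact_mod_cast Nat.pos_of_ne_zero (NeZero.ne N)
  have hc : (0 : ℝ) < A.card := by exact_mod_cast hA.card_pos
  have hJr : (0 : ℝ) < J := by exact_mod_cast hJ0
  have hJ1 : (1 : ℝ) ≤ J := by exact_mod_cast hJ0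
  set M : ℝ := (N : ℝ) with hMdef
  have hM : M = Fintype.card (ZMod N) := by rw [ZMod.card]
  have hLdiff : L = Real.log N - Real.log A.card := by
    rw [hL, Real.log_div hN.ne' hc.ne']
  set P := dif A with hP
  have hPP : IsPr P := dif_pr A hA
  have huA : IsPr (unif A) := ⟨unif_nonneg _, sum_unif _ hA⟩
  have hunA : IsPr (unif (-A)) := ⟨unif_nonneg _, sum_unif _ hA.neg⟩
  -- the scale
  obtain ⟨j, hj, hsc⟩ := scaleK (psi M P) L K hK (neg_one_le_psi M hM P hPP) (fun t => by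
    apply psi_le M P hPP t L
    intro y hy
    have h1 : 0 < P y := lt_of_le_of_ne (hPP.1 y) (Ne.symm hy)
    rw [hL]
    apply Real.log_le_log (by positivity)
    rw [div_eq_mul_inv]
    exact mul_le_mul_of_nonneg_left (dif_le A hA y) hN.le) J hJ0 hJ
  set s : ℝ := K * 2 ^ j with hs
  set c : ℝ := 1 / (8 * ((j : ℝ) + 1) ^ 2) + 1 / (8 * (J : ℝ)) with hcdef
  set t : ℝ := s - K with ht
  have hK0 : (0 : ℝ) < K := by linarith
  have hsK : K ≤ s := by
    have h2 : (1 : ℝ) ≤ 2 ^ j := one_le_pow₀ (by norm_num)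
    rw [hs]
    calc K = K * 1 := (mul_one K).symm
      _ ≤ K * 2 ^ j := mul_le_mul_of_nonneg_left h2 hK0.le
  have ht0 : 0 ≤ t := by rw [ht]; linarith
  set b : ℝ := t + (K + 2) with hb
  have hbt : -b ≤ t := by rw [hb]; linarith
  have hbt0 : 0 < t + b := by rw [hb]; linarith
  set a : ZMod N → ℝ := fun y => cl b t (M * P y) with ha
  set φ : ZMod N → ℝ := fun y => (a y + b) / (t + b) with hφ
  have h0 : ∀ y, 0 ≤ φ y := fun y => by
    have := neg_le_cl b t (M * P y)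
    apply div_nonneg _ hbt0.le
    simp only [ha]; linarith
  have h1 : ∀ y, φ y ≤ 1 := fun y => by
    have := cl_le b t (M * P y) hbt
    simp only [hφ, ha]
    rw [div_le_one hbt0]; linarith
  have hφneg : ∀ y, φ (-y) = φ y := fun y => by
    simp only [hφ, ha, hP]
    rw [dif_neg]
  -- the state
  set Λ : ℝ := 768 * J * L with hΛ
  have hΛ0 : 0 < Λ := by rw [hΛ]; positivity
  obtain ⟨ν₁, ν₂, hν₁, hν₂, hgain, hst⟩ := exists_state (unif (-A)) (unif A) φ Λ
    hunA huA hΛ0.le h0 h1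
  set π := cnv ν₁ (unif (-A)) with hπ
  set ω := cnv ν₂ (unif A) with hω
  have hπP : IsPr π := hν₁.cnv hunA
  have hωP : IsPr ω := hν₂.cnv huA
  have hentA : entT (unif A) = Real.log A.card := ent_unif A hA
  have hentnA : entT (unif (-A)) = Real.log A.card := by
    have := ent_unif (-A) hA.neg
    rw [Finset.card_neg] at this
    exact this
  have hle : ∀ p : ZMod N → ℝ, IsPr p → entT p ≤ Real.log N := by
    intro p hp
    have h3 := ent_le_log_card p hp.1 hp.2 Finset.univ (fun x _ => Finset.mem_univ x)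
    rw [Finset.card_univ, ZMod.card] at h3
    exact h3
  set E : ℝ := ∑ y, P y * φ y with hE
  have hQ0 : Qf φ (unif (-A)) (unif A) = E := by
    rw [Qf_eq_sum, hE, hP]
    unfold dif
    rw [cnv_comm]
  have hQ : E - 1 / (384 * J) ≤ Qf φ π ω := by
    rw [hQ0, hentA, hentnA] at hgain
    have h2 := hle π hπP
    have h3 := hle ω hωP
    have h4 : Λ * (E - 1 / (384 * J)) ≤ Λ * Qf φ π ω := by
      have h5 : Λ * (1 / (384 * J)) = 2 * L := by rw [hΛ]; field_simp; norm_num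
      rw [mul_sub, h5]
      linarith
    exact le_of_mul_le_mul_left h4 hΛ0
  have hLπ : Real.log (Fintype.card (ZMod N)) - entT π ≤ L := by
    rw [ZMod.card]
    have h2 : entT (unif (-A)) ≤ entT π := ent_le_ent_cnv _ _ hν₁.1 hν₁.2 hunA.1
    rw [hentnA] at h2
    linarith
  obtain ⟨σ, hσ, hmi, -, hdef⟩ := exists_noise π ω hπP hωP Λ L hΛ0 hLπ hst i
  rw [ZMod.card] at hdef
  have hQn : E - 2 / (384 * J) ≤ Qf ((smo σ)^[n] φ) π ω := by
    have h2 := (Qf_iter σ π ω hσ hπP hωP φ h0 h1 n).2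
    have h3 : (n : ℝ) * Real.sqrt (mi (jnt σ π ω)) ≤ 1 / (384 * J) := by
      have h4 : (n : ℝ) * Real.sqrt (mi (jnt σ π ω)) ≤ n * (1 / 2) ^ i := by gcongr
      refine h4.trans ?_
      rw [one_div, inv_pow, ← div_eq_mul_inv, div_le_div_iff₀ (by positivity) (by positivity)]
      linarith
    have h6 : (2 : ℝ) / (384 * J) = 1 / (384 * J) + 1 / (384 * J) := by ring
    rw [h6]; linarith
  obtain ⟨Γ, hΓ, hosc⟩ := osc_of_noise A hA ν₁ ν₂ σ hν₁ hν₂ hσ n (1 / (384 * J)) (by positivity)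
    (by rw [div_le_one (by positivity)]; linarith) φ h0 h1 hn
  refine ⟨Γ, hΓ.trans (by linarith), ?_⟩
  intro ε hε x hx
  have hFx := hosc ε hε x hx
  set F := cnv (rv π) (cnv (rv ω) ((smo σ)^[n] φ)) with hF
  have hF0 : F 0 = Qf ((smo σ)^[n] φ) π ω := by
    rw [hF, cnv_rv]
    simp_rw [cnv_rv]
    unfold Qf
    refine Finset.sum_congr rfl fun z _ => ?_
    rw [Finset.mul_sum]
    refine Finset.sum_congr rfl fun w _ => ?_
    rw [zero_add]; ring
  -- the mixture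
  obtain ⟨κ, hκ, hκu⟩ := smo_iter_eq_cnv σ φ hσ n
  set ν := cnv (rv ν₁) (cnv (rv ν₂) κ) with hν
  have hνP : IsPr ν := hν₁.rv.cnv (hν₂.rv.cnv hκ)
  have hFν : F = cnv (cnv ν P) φ := by
    rw [hF, hκu, hπ, hω, rv_cnv, rv_cnv, rv_unif_neg A, rv_unif A, hν, hP]
    unfold dif
    simp only [cnv_assoc']
    congr 1
    rw [← cnv_assoc' (unif A) (rv ν₂), cnv_comm (unif A) (rv ν₂), cnv_assoc']
    congr 1
    rw [← cnv_assoc' (unif A) (unif (-A)), ← cnv_assoc' (cnv (unif A) (unif (-A))) κ,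
      cnv_comm (cnv (unif A) (unif (-A))) κ, cnv_assoc', cnv_assoc']
  set μ := cnv ν P with hμ
  have hμP : IsPr μ := hνP.cnv hPP
  have hF0' : F 0 = ∑ y, μ y * φ y := by
    rw [hFν]
    unfold cnv
    refine Finset.sum_congr rfl fun y _ => ?_
    rw [zero_sub, hφneg]
  have hFx' : F x = ∑ y, μ y * φ (x - y) := by
    rw [hFν]; rfl
  have hconv : ∀ (q : ZMod N → ℝ) (g : ZMod N → ZMod N), IsPr q →
      ∑ y, q y * a (g y) = (t + b) * (∑ y, q y * φ (g y)) - b := by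
    intro q g hq
    have e1 : ∀ y, q y * φ (g y) * (t + b) = q y * a (g y) + q y * b := by
      intro y
      simp only [hφ]
      field_simp
    have e2 : (∑ y, q y * φ (g y)) * (t + b) = ∑ y, q y * a (g y) + b := by
      rw [Finset.sum_mul]
      simp_rw [e1]
      rw [Finset.sum_add_distrib, ← Finset.sum_mul, hq.2, one_mul]
    linarith
  have hmain := main_ineq M hM P ν hPP hνP b t K hbt x
  have g1 : ∑ y, μ y * a y = (t + b) * F 0 - b := by
    rw [hF0']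
    exact hconv μ (fun y => y) hμP
  have g2 : ∑ y, μ y * a (x - y) = (t + b) * F x - b := by
    rw [hFx']
    exact hconv μ (fun y => x - y) hμP
  have g3 : ∑ y, P y * a y = (t + b) * E - b := hconv P (fun y => y) hPP
  have g4 : psi M P t ≤ ∑ y, P y * a y := by
    unfold psi
    refine Finset.sum_le_sum fun y _ => ?_
    rcases (hPP.1 y).eq_or_lt with h | h
    · rw [← h, zero_mul, zero_mul]
    · exact mul_le_mul_of_nonneg_left (min_log_le_cl b t _ (by positivity)) h.le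
  rw [← hμ] at hmain
  have g5 : ∑ y, μ y * cl b t (M * P y) = ∑ y, μ y * a y := rfl
  have g6 : ∑ y, μ y * cl b t (M * P (x - y)) = ∑ y, μ y * a (x - y) := rfl
  rw [g5, g6, g1, g2] at hmain
  have hd : 1 / (128 * (J : ℝ)) ≤ c / 16 := by
    rw [hcdef]
    have : 0 ≤ 1 / (8 * ((j : ℝ) + 1) ^ 2) := by positivity
    have e : 1 / (128 * (J : ℝ)) = 1 / (8 * (J : ℝ)) / 16 := by field_simp; norm_num
    rw [e]; linarith
  have h3J : (3 : ℝ) / (384 * J) = 1 / (128 * J) := by field_simp; norm_num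
  have g7 : E - 1 / (128 * (J : ℝ)) ≤ F 0 := by
    rw [hF0, ← h3J]
    have : (3 : ℝ) / (384 * J) = 2 / (384 * J) + 1 / (384 * J) := by ring
    have h8 : (0 : ℝ) ≤ 1 / (384 * J) := by positivity
    rw [this]; linarith
  have g8 : E - 1 / (128 * (J : ℝ)) ≤ F x := by
    rw [← h3J]
    have : (3 : ℝ) / (384 * J) = 2 / (384 * J) + 1 / (384 * J) := by ring
    rw [this]
    rw [← hF0] at hQn
    linarith
  have g9 : (t + b) * (E - 1 / (128 * (J : ℝ))) ≤ (t + b) * F 0 :=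
    mul_le_mul_of_nonneg_left g7 hbt0.le
  have g10 : (t + b) * (E - 1 / (128 * (J : ℝ))) ≤ (t + b) * F x :=
    mul_le_mul_of_nonneg_left g8 hbt0.le
  have g11 : (t + b) * (1 / (128 * (J : ℝ))) ≤ s * c / 8 := by
    have e1 : t + b ≤ 2 * s := by rw [hb, ht]; linarith
    calc (t + b) * (1 / (128 * (J : ℝ))) ≤ (2 * s) * (c / 16) := by
          apply mul_le_mul e1 hd (by positivity) (by positivity)
      _ = s * c / 8 := by ring
  have hsc' : s * c ≤ 2 * psi M P t - psi M P (2 * t + K) - 1 + K := hsc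
  have hsclow : 8 / 9 ≤ s * c := by
    have e1 := four_sq_le j
    have e2 : (0 : ℝ) < ((j : ℝ) + 1) ^ 2 := by positivity
    have e3 : 8 / 9 ≤ s * (1 / (8 * ((j : ℝ) + 1) ^ 2)) := by
      rw [hs, mul_one_div, div_le_div_iff₀ (by norm_num) (by positivity)]
      have e5 : (16 : ℝ) * 2 ^ j ≤ K * 2 ^ j := mul_le_mul_of_nonneg_right hK (by positivity)
      linarith
    have e4 : 0 ≤ s * (1 / (8 * (J : ℝ))) := by positivity
    rw [hcdef, mul_add]; linarith
  have hS : M * ∑ y, P y * P (x - y) = N * ((rep4 A x : ℝ) / (A.card : ℝ) ^ 4) := by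
    rw [hP, dif_dif A hA x]
  rw [hS] at hmain
  -- numerics
  have n1 : Real.exp K * (Real.exp (-b) + Real.exp (t - b)) ≤ 2 * Real.exp (-2) := by
    have e1 : Real.exp (-b) ≤ Real.exp (-(K + 2)) :=
      Real.exp_le_exp.mpr (by rw [hb]; linarith)
    have e2 : Real.exp (t - b) = Real.exp (-(K + 2)) := by rw [hb]; congr 1; ring
    have e3 : Real.exp K * Real.exp (-(K + 2)) = Real.exp (-2) := by
      rw [← Real.exp_add]; congr 1; ring
    have e4 := Real.exp_pos K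
    calc Real.exp K * (Real.exp (-b) + Real.exp (t - b))
        ≤ Real.exp K * (Real.exp (-(K + 2)) + Real.exp (-(K + 2))) := by rw [e2]; gcongr
      _ = 2 * (Real.exp K * Real.exp (-(K + 2))) := by ring
      _ = 2 * Real.exp (-2) := by rw [e3]
  have n2 : Real.exp (-2) ≤ 0.14 := by
    have e1 : Real.exp (-2) = (Real.exp (-1)) ^ 2 := by
      rw [← Real.exp_nat_mul]; norm_num
    have e2 := Real.exp_neg_one_lt_d9
    have e3 := Real.exp_pos (-1 : ℝ)
    rw [e1]; nlinarith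
  have n3 : Real.exp (-1) ≤ 0.37 := by
    have e2 := Real.exp_neg_one_lt_d9
    linarith
  have n4 : Real.exp K * Real.exp (-(K + 1)) = Real.exp (-1) := by
    rw [← Real.exp_add]; congr 1; ring
  have n5 : Real.exp K * Real.exp (-(K + 1))
      ≤ Real.exp K * (N * ((rep4 A x : ℝ) / (A.card : ℝ) ^ 4)) := by
    rw [n4]
    have e1 : Real.exp K * (N * ((rep4 A x : ℝ) / (A.card : ℝ) ^ 4) + Real.exp (-b)
        + Real.exp (t - b)) = Real.exp K * (N * ((rep4 A x : ℝ) / (A.card : ℝ) ^ 4))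
        + Real.exp K * (Real.exp (-b) + Real.exp (t - b)) := by ring
    rw [e1] at hmain
    linarith
  exact le_of_mul_le_mul_left n5 (Real.exp_pos K)

end Pool.Agent.H18.POP
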